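import Pool.Agent.H41.PS.Stm

/-!
# Project PS, task LIN: a flat of `F_2 ^ 10` in numbers
-/

set_option autoImplicit false

namespace Pool.Agent.H230.PS

open Pool.Agent.H41.PS

theorem testBit_encn : ∀ (n : ℕ) (x : Fin n → ZMod 2) (i : ℕ),
    (∑ j : Fin n, (x j).val * 2 ^ (j : ℕ)).testBit i =
      if h : i < n then decide (x ⟨i, h⟩ = 1) else false := by
  intro n
  induction n with
  | zero => intro x i; simp
  | succ n ih =>
    intro x i
    have h1 : (∑ j : Fin (n + 1), (x j).val * 2 ^ (j : ℕ)) =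
        (x 0).val + 2 * ∑ j : Fin n, (x j.succ).val * 2 ^ (j : ℕ) := by
      rw [Fin.sum_univ_succ, Finset.mul_sum]
      congr 1
      · simp
      · refine Finset.sum_congr rfl fun j _ => ?_
        rw [Fin.val_succ, pow_succ]
        ring
    have h2 : (x 0).val < 2 := ZMod.val_lt (x 0)
    rw [h1]
    rcases i with _ | i
    · rw [Nat.testBit_zero, dif_pos (Nat.succ_pos n)]
      have h3 : ((x 0).val + 2 * ∑ j : Fin n, (x j.succ).val * 2 ^ (j : ℕ)) % 2 = (x 0).val := by
        omega
      rw [h3]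
      have h4 : ∀ a : ZMod 2, decide (a.val = 1) = decide (a = 1) := by decide
      exact h4 (x 0)
    · rw [Nat.testBit_succ]
      have h3 : ((x 0).val + 2 * ∑ j : Fin n, (x j.succ).val * 2 ^ (j : ℕ)) / 2 =
          ∑ j : Fin n, (x j.succ).val * 2 ^ (j : ℕ) := by omega
      rw [h3, ih (fun j => x j.succ) i]
      by_cases h : i < n
      · rw [dif_pos h, dif_pos (Nat.succ_lt_succ h)]
        rfl
      · rw [dif_neg h, dif_neg (fun h' => h (Nat.lt_of_succ_lt_succ h'))]

theorem testBit_enc (x : Fin 10 → ZMod 2) (i : ℕ) : (enc x).testBit i =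
    if h : i < 10 then decide (x ⟨i, h⟩ = 1) else false := testBit_encn 10 x i

theorem enc_lt (x : Fin 10 → ZMod 2) : enc x < 1024 := by
  refine Nat.lt_pow_two_of_testBit (n := 10) _ fun i hi => ?_
  rw [testBit_enc, dif_neg (not_lt.mpr hi)]

theorem enc_add (x y : Fin 10 → ZMod 2) : enc (x + y) = enc x ^^^ enc y := by
  apply Nat.eq_of_testBit_eq
  intro i
  rw [Nat.testBit_xor, testBit_enc, testBit_enc, testBit_enc]
  by_cases h : i < 10
  · rw [dif_pos h, dif_pos h, dif_pos h]
    have h4 : ∀ a b : ZMod 2, decide (a + b = 1) = (decide (a = 1) ^^ decide (b = 1)) := by decide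
    exact h4 _ _
  · rw [dif_neg h, dif_neg h, dif_neg h]; rfl

/-- the point with a given number -/
def dec (n : ℕ) : Fin 10 → ZMod 2 := fun i => if n.testBit i then 1 else 0

theorem dec_enc (x : Fin 10 → ZMod 2) : dec (enc x) = x := by
  funext i
  unfold dec
  rw [testBit_enc, dif_pos i.2]
  have h4 : ∀ a : ZMod 2, (if decide (a = 1) = true then (1 : ZMod 2) else 0) = a := by decide
  exact h4 (x i)

theorem enc_inj : Function.Injective enc := fun x y h => by
  rw [← dec_enc x, ← dec_enc y, h]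

theorem t_LIN : S_LIN := by
  classical
  intro c a b U hU hf
  let H : Finset ℕ := ((Finset.univ : Finset (Fin 10 → ZMod 2)).filter fun x => x ∈ U).image enc
  have hH : ∀ n, n ∈ H ↔ ∃ u ∈ U, enc u = n := by
    intro n
    simp [H]
  let g : ℕ → Bool := fun n => decide (∑ i, a i * dec n i = 1)
  have hg : ∀ u, g (enc u) = decide (∑ i, a i * u i = 1) := by
    intro u
    change decide (∑ i, a i * dec (enc u) i = 1) = _
    rw [dec_enc]
  refine ⟨H, g, enc c, enc_lt c, ?_, ?_, ?_, ?_, ?_⟩
  · intro n hn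
    obtain ⟨u, _, rfl⟩ := (hH n).mp hn
    exact enc_lt u
  · rw [hH]
    exact ⟨0, U.zero_mem, by simp [enc]⟩
  · intro x hx y hy
    obtain ⟨u, hu, rfl⟩ := (hH x).mp hx
    obtain ⟨v, hv, rfl⟩ := (hH y).mp hy
    rw [← enc_add]
    refine ⟨(hH _).mpr ⟨u + v, U.add_mem hu hv, rfl⟩, ?_⟩
    rw [hg, hg, hg]
    have h1 : ∑ i, a i * (u + v) i = ∑ i, a i * u i + ∑ i, a i * v i := by
      rw [← Finset.sum_add_distrib]
      refine Finset.sum_congr rfl fun i _ => ?_
      rw [Pi.add_apply, mul_add]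
    rw [h1]
    have h4 : ∀ a b : ZMod 2, decide (a + b = 1) = (decide (a = 1) ^^ decide (b = 1)) := by decide
    exact h4 _ _
  · rw [Finset.card_image_of_injective _ enc_inj]
    have h1 : ((Finset.univ : Finset (Fin 10 → ZMod 2)).filter fun x => x ∈ U).card =
        Fintype.card U := by
      rw [Fintype.card_subtype]
    have h2 := Module.card_eq_pow_finrank (K := ZMod 2) (V := U)
    rw [h1, h2, hU, ZMod.card]
    norm_num
  · intro h hh u hu
    obtain ⟨v, hv, rfl⟩ := (hH h).mp hh
    obtain ⟨w, hw, rfl⟩ := (hH u).mp hu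
    rw [← enc_add, ← enc_add, hg]
    have h1 := hf v hv
    have h2 := hf (v + w) (U.add_mem hv hw)
    rw [← add_assoc] at h2
    have h3 : ∑ i, a i * (c + v + w) i + b = (∑ i, a i * (c + v) i + b) + ∑ i, a i * w i := by
      have : ∑ i, a i * (c + v + w) i = ∑ i, a i * (c + v) i + ∑ i, a i * w i := by
        rw [← Finset.sum_add_distrib]
        refine Finset.sum_congr rfl fun i _ => ?_
        rw [Pi.add_apply (c + v) w, mul_add]
      rw [this]; ring
    rw [h3, ← h1] at h2
    unfold ff at h2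
    have h4 : ∀ (s t : Bool) (r : ZMod 2), (if t = true then (1 : ZMod 2) else 0) =
        (if s = true then (1 : ZMod 2) else 0) + r → t = (s ^^ decide (r = 1)) := by decide
    exact h4 _ _ _ h2

end Pool.Agent.H230.PS
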